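import Pool.Agent.H11_Derange.Cycle

open Equiv Finset

namespace H11.Derange

/-- the matrix with entries `1/(1-ζ^(j-k))` off the diagonal -/
noncomputable def B (n : ℕ) (ζ : ℂ) : Matrix (Fin n) (Fin n) ℂ :=
  Matrix.of fun j k => if j = k then 0 else 1 / (1 - ζ ^ ((j : ℤ) - (k : ℤ)))

theorem zpow_ne {n : ℕ} {ζ : ℂ} (h : IsPrimitiveRoot ζ n) {j k : Fin n} (hjk : j ≠ k) :
    ζ ^ ((j : ℤ) - (k : ℤ)) ≠ 1 := by
  intro h1
  rw [h.zpow_eq_one_iff_dvd] at h1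
  obtain ⟨c, hc⟩ := h1
  have hj := j.2
  have hk := k.2
  apply hjk
  apply Fin.ext
  have hn : (0:ℤ) < n := by
    have := Nat.lt_of_le_of_lt (Nat.zero_le _) hj
    exact_mod_cast this
  have h2 : c = 0 := by
    by_contra hc0
    rcases lt_or_gt_of_ne hc0 with h3 | h3
    · have : (n:ℤ) * c ≤ n * (-1) := by
        apply mul_le_mul_of_nonneg_left (by omega) hn.le
      omega
    · have : (n:ℤ) * 1 ≤ n * c := by
        apply mul_le_mul_of_nonneg_left (by omega) hn.le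
      omega
  rw [h2, mul_zero] at hc
  omega

theorem sum_pow_zero {n : ℕ} {ζ : ℂ} (h : IsPrimitiveRoot ζ n) {s : ℕ} (hs0 : 0 < s)
    (hs : s < n) : ∑ k : Fin n, (ζ ^ (k:ℕ)) ^ s = 0 := by
  have h1 : (ζ ^ s) ≠ 1 := by
    intro h2
    have := h.dvd_of_pow_eq_one _ h2
    exact absurd (Nat.le_of_dvd hs0 this) (by omega)
  have h3 : ∑ k : Fin n, (ζ ^ (k:ℕ)) ^ s = ∑ k ∈ range n, (ζ ^ s) ^ k := by
    rw [← Fin.sum_univ_eq_sum_range (fun k => (ζ ^ s) ^ k)]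
    refine Finset.sum_congr rfl (fun k _ => ?_)
    rw [← pow_mul, ← pow_mul, mul_comm]
  rw [h3, geom_sum_eq h1]
  rw [← pow_mul, mul_comm, pow_mul, h.pow_eq_one, one_pow, sub_self, zero_div]

theorem S0 {n : ℕ} {ζ : ℂ} (hn : 0 < n) (h : IsPrimitiveRoot ζ n) (j : Fin n) :
    ∑ k : Fin n, B n ζ j k = ((n : ℂ) - 1) / 2 := by
  have : NeZero n := ⟨hn.ne'⟩
  have hζ : ζ ≠ 0 := h.ne_zero hn.ne'
  -- dependence only on the difference
  have hmod : ∀ a b : Fin n, ζ ^ ((a : ℤ) - (b : ℤ)) = ζ ^ ((a - b : Fin n) : ℕ) := by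
    intro a b
    rw [← zpow_natCast ζ ((a - b : Fin n) : ℕ)]
    have hd : ζ ^ ((a : ℤ) - (b : ℤ) - (((a - b : Fin n) : ℕ) : ℤ)) = 1 := by
      rw [h.zpow_eq_one_iff_dvd]
      rw [Fin.val_sub]
      have hb := b.2
      have : (((n - (b:ℕ) + a) % n : ℕ) : ℤ) = ((n:ℤ) - b + a) % n := by
        push_cast [Nat.cast_sub hb.le]
        rfl
      rw [this]
      have h5 : ((n:ℤ) - b + a) % n = ((n:ℤ) - b + a) - n * (((n:ℤ) - b + a) / n) := by
        have := Int.emod_add_mul_ediv ((n:ℤ) - b + a) n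
        linarith
      rw [h5]
      exact ⟨((n:ℤ) - b + a) / n - 1, by ring⟩
    have := sub_add_cancel ((a : ℤ) - (b : ℤ)) (((a - b : Fin n) : ℕ) : ℤ)
    rw [← this, zpow_add₀ hζ, hd, one_mul]
  set f : Fin n → ℂ := fun r => if r = 0 then 0 else 1 / (1 - ζ ^ (r : ℕ)) with hf
  have h1 : ∑ k : Fin n, B n ζ j k = ∑ r : Fin n, f r := by
    rw [← Equiv.sum_comp (Equiv.subLeft j)]
    refine Finset.sum_congr rfl (fun k _ => ?_)
    simp only [B, Matrix.of_apply, hf, Equiv.subLeft_apply]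
    rw [hmod, sub_sub_cancel]
    have h6 : (j = j - k) ↔ k = 0 := eq_comm.trans sub_eq_self
    simp only [h6]
  have h2 : ∑ r : Fin n, f r = ∑ r : Fin n, f (-r) := (Equiv.sum_comp (Equiv.neg _) f).symm
  have h3 : ∀ r : Fin n, f r + f (-r) = if r = 0 then 0 else 1 := by
    intro r
    simp only [hf, neg_eq_zero]
    split_ifs with hr
    · simp
    · have e1 : ζ ^ ((r : Fin n) : ℕ) ≠ 1 := by
        have := zpow_ne h (j := r) (k := 0) hr
        simpa using this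
      have e2 : ζ ^ ((-r : Fin n) : ℕ) = (ζ ^ (r : ℕ))⁻¹ := by
        have := hmod 0 r
        rw [zero_sub] at this
        rw [← this]
        simp
      rw [e2]
      have e3 : ζ ^ (r : ℕ) ≠ 0 := pow_ne_zero _ hζ
      have e4 : 1 - ζ ^ (r : ℕ) ≠ 0 := sub_ne_zero.2 (Ne.symm e1)
      have e5 : 1 - (ζ ^ (r : ℕ))⁻¹ ≠ 0 := by
        rw [sub_ne_zero]
        intro h'
        exact e1 (inv_eq_one.1 h'.symm)
      have e6 : ζ ^ (r : ℕ) - 1 ≠ 0 := sub_ne_zero.2 e1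
      field_simp
      ring
  have h4 : 2 * ∑ r : Fin n, f r = (n : ℂ) - 1 := by
    calc 2 * ∑ r : Fin n, f r = ∑ r : Fin n, f r + ∑ r : Fin n, f (-r) := by rw [← h2]; ring
      _ = ∑ r : Fin n, (if r = 0 then (0:ℂ) else 1) := by
          rw [← Finset.sum_add_distrib]
          exact Finset.sum_congr rfl (fun r _ => h3 r)
      _ = ∑ r : Fin n, ((1:ℂ) - if r = 0 then 1 else 0) := by
          refine Finset.sum_congr rfl (fun r _ => ?_)
          split_ifs <;> simp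
      _ = (n : ℂ) - 1 := by
          rw [Finset.sum_sub_distrib]
          simp
  rw [h1, eq_div_iff (by norm_num), mul_comm]
  exact h4

theorem Ss {n : ℕ} {ζ : ℂ} (hn : 0 < n) (h : IsPrimitiveRoot ζ n) (j : Fin n) (s : ℕ)
    (hs : s < n) :
    ∑ k : Fin n, B n ζ j k * (ζ ^ (k:ℕ)) ^ s = (ζ ^ (j:ℕ)) ^ s * (((n : ℂ) - 1) / 2 - s) := by
  have hζ : ζ ≠ 0 := h.ne_zero hn.ne'
  induction s with
  | zero => simp [S0 hn h j]
  | succ s ih =>
    have h1 : ∀ k : Fin n, B n ζ j k * (ζ ^ (k:ℕ)) ^ (s + 1)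
        = ζ ^ (j:ℕ) * (B n ζ j k * (ζ ^ (k:ℕ)) ^ s)
          + ((ζ ^ (k:ℕ)) ^ (s + 1) - if k = j then (ζ ^ (j:ℕ)) ^ (s + 1) else 0) := by
      intro k
      simp only [B, Matrix.of_apply]
      by_cases hkj : j = k
      · rw [if_pos hkj, if_pos hkj.symm, hkj]
        ring
      · rw [if_neg hkj, if_neg (Ne.symm hkj)]
        have e1 : 1 - ζ ^ ((j : ℤ) - (k : ℤ)) ≠ 0 := sub_ne_zero.2 (Ne.symm (zpow_ne h hkj))
        have e2 : ζ ^ ((j : ℤ) - (k : ℤ)) * ζ ^ (k:ℕ) = ζ ^ (j:ℕ) := by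
          rw [← zpow_natCast ζ k, ← zpow_add₀ hζ, sub_add_cancel, zpow_natCast]
        rw [← e2]
        field_simp
        ring
    rw [Finset.sum_congr rfl (fun k _ => h1 k), Finset.sum_add_distrib, ← Finset.mul_sum,
      ih (by omega), Finset.sum_sub_distrib, sum_pow_zero h (by omega) hs]
    simp
    ring

theorem det_B {n : ℕ} {ζ : ℂ} (hn : 0 < n) (h : IsPrimitiveRoot ζ n) :
    (B n ζ).det = ∏ s ∈ range n, (((n : ℂ) - 1) / 2 - s) := by
  set V : Matrix (Fin n) (Fin n) ℂ := Matrix.vandermonde (fun k : Fin n => ζ ^ (k:ℕ)) with hV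
  have hVd : V.det ≠ 0 := by
    rw [hV, Matrix.det_vandermonde_ne_zero_iff]
    intro a b hab
    exact Fin.ext (h.pow_inj a.2 b.2 hab)
  have h1 : B n ζ * V = V * Matrix.diagonal (fun s : Fin n => ((n : ℂ) - 1) / 2 - (s:ℕ)) := by
    ext j s
    rw [Matrix.mul_apply, Matrix.mul_diagonal]
    simp only [hV, Matrix.vandermonde_apply]
    exact Ss hn h j s s.2
  have h2 := congrArg Matrix.det h1
  rw [Matrix.det_mul, Matrix.det_mul, Matrix.det_diagonal, mul_comm V.det] at h2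
  have h3 := mul_right_cancel₀ hVd h2
  rw [h3, ← Fin.prod_univ_eq_prod_range (fun s => (((n : ℂ) - 1) / 2 - (s:ℂ)))]

end H11.Derange
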