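import Mathlib

open Equiv Finset

namespace H11.Derange

variable {K : Type*} [Field K]

/-- off-diagonal difference matrix -/
def W {α : Type*} [DecidableEq α] (x : α → K) (j k : α) : K :=
  if j = k then 0 else 1 / (x k - x j)

def F {α : Type*} [DecidableEq α] [Fintype α] (g : ℤˣ →* K) (x : α → K) : K :=
  ∑ σ : Perm α, g (Perm.sign σ) * ∏ j, W x j (σ j)

theorem W_self {α : Type*} [DecidableEq α] (x : α → K) (j : α) : W x j j = 0 := by
  simp [W]

theorem F_congr {α β : Type*} [DecidableEq α] [Fintype α] [DecidableEq β] [Fintype β]
    (g : ℤˣ →* K) (e : α ≃ β) (x : β → K) : F g x = F g (x ∘ e) := by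
  unfold F
  refine Fintype.sum_equiv (e.symm.permCongr) _ _ (fun σ => ?_)
  rw [Equiv.Perm.sign_permCongr]
  congr 1
  refine Fintype.prod_equiv e.symm _ _ (fun j => ?_)
  simp only [W, Equiv.permCongr_apply, Equiv.symm_symm, Equiv.apply_symm_apply,
    Function.comp]
  by_cases h : j = σ j
  · rw [if_pos h, if_pos (by rw [← h])]
  · rw [if_neg h, if_neg (by intro h'; exact h (e.symm.injective h'))]

theorem F_subtype {α : Type*} [DecidableEq α] [Fintype α] (g : ℤˣ →* K) (x : α → K) (a : α) :
    ∑ σ : Perm α, g (Perm.sign σ) * (if σ a = a then ∏ c ∈ univ.erase a, W x c (σ c) else 0)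
      = F g (fun c : {c // c ≠ a} => x c) := by
  have h1 : ∀ σ : Perm α, g (Perm.sign σ) *
      (if σ a = a then ∏ c ∈ univ.erase a, W x c (σ c) else 0)
      = if σ a = a then g (Perm.sign σ) * ∏ c ∈ univ.erase a, W x c (σ c) else 0 := by
    intro σ
    split_ifs <;> simp
  rw [Finset.sum_congr rfl (fun σ _ => h1 σ), ← Finset.sum_filter]
  unfold F
  symm
  refine Finset.sum_bij (fun (τ : Perm {c // c ≠ a}) _ => Perm.ofSubtype τ) ?_ ?_ ?_ ?_
  · intro τ _
    simp only [Finset.mem_filter, Finset.mem_univ, true_and]
    exact Perm.ofSubtype_apply_of_not_mem τ (by simp)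
  · intro τ _ τ' _ h
    exact Perm.ofSubtype_injective h
  · intro σ hσ
    simp only [Finset.mem_filter, Finset.mem_univ, true_and] at hσ
    have hp : ∀ b, (b ≠ a) ↔ (σ b ≠ a) := by
      intro b
      constructor
      · intro hb h
        exact hb (σ.injective (h.trans hσ.symm))
      · intro hb h
        exact hb (h ▸ hσ)
    refine ⟨σ.subtypePerm (fun b => (hp b).symm), Finset.mem_univ _, ?_⟩
    apply Perm.ofSubtype_subtypePerm
    intro b hb hba
    exact hb (by rw [hba]; exact hσ)
  · intro τ _
    rw [Perm.sign_ofSubtype]
    congr 1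
    have h2 : ∏ c ∈ univ.erase a, W x c (Perm.ofSubtype τ c)
        = ∏ c ∈ univ.filter (fun c => c ≠ a), W x c (Perm.ofSubtype τ c) := by
      congr 1
      ext c
      simp
    rw [h2, Finset.prod_subtype (univ.filter (fun c => c ≠ a)) (p := fun c => c ≠ a) (by simp)]
    refine Finset.prod_congr rfl (fun c _ => ?_)
    rw [Perm.ofSubtype_apply_coe]
    simp only [W]
    by_cases h : c = τ c
    · rw [if_pos h, if_pos (by rw [← h])]
    · rw [if_neg h, if_neg (fun h' => h (Subtype.ext h'))]

theorem F_option {α : Type*} [DecidableEq α] [Fintype α] (g : ℤˣ →* K) (x : Option α → K)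
    (hx : Function.Injective x) :
    F g x = g (-1) * ∑ a : α, (W x none (some a) * W x (some a) none) *
      F g (fun c : {c : α // c ≠ a} => x (some c)) := by
  have h0 : F g x = ∑ p : Option α × Perm α, g (Perm.sign (Perm.decomposeOption.symm p)) *
      ∏ j, W x j (Perm.decomposeOption.symm p j) := by
    unfold F
    exact (Equiv.sum_comp Perm.decomposeOption.symm
      (fun σ : Perm (Option α) => g (Perm.sign σ) * ∏ j, W x j (σ j))).symm
  rw [h0, Fintype.sum_prod_type_right]
  -- for each σ'
  have h1 : ∀ σ : Perm α, ∑ i : Option α, g (Perm.sign (Perm.decomposeOption.symm (i, σ))) *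
      ∏ j, W x j (Perm.decomposeOption.symm (i, σ) j)
      = g (-1) * ∑ a : α, (W x none (some a) * W x (some a) none) *
        (g (Perm.sign σ) * (if σ a = a then ∏ c ∈ univ.erase a, W (fun c => x (some c)) c (σ c)
          else 0)) := by
    intro σ
    rw [Fintype.sum_option]
    have hz : ∏ j, W x j (Perm.decomposeOption.symm ((none : Option α), σ) j) = 0 := by
      apply Finset.prod_eq_zero (Finset.mem_univ none)
      simp [W]
    rw [hz, mul_zero, zero_add]
    rw [← Equiv.sum_comp σ]
    have h2 : ∀ a : α, g (Perm.sign (Perm.decomposeOption.symm (some (σ a), σ))) *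
        ∏ j, W x j (Perm.decomposeOption.symm (some (σ a), σ) j)
        = g (-1) * g (Perm.sign σ) *
          ((W x (some a) none - W x (some (σ a)) none) * ∏ c, W (fun c => x (some c)) c (σ c)
          + (W x none (some a) * W x (some a) none) *
          (if σ a = a then ∏ c ∈ univ.erase a, W (fun c => x (some c)) c (σ c) else 0)) := by
      intro a
      have hs : Perm.sign (Perm.decomposeOption.symm (some (σ a), σ)) = -1 * Perm.sign σ := by
        simp [Perm.decomposeOption]
      rw [hs, map_mul]
      congr 1
      rw [Fintype.prod_option]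
      have hn : (Perm.decomposeOption.symm (some (σ a), σ)) none = some (σ a) := by
        simp [Perm.decomposeOption]
      rw [hn, ← Finset.mul_prod_erase univ _ (Finset.mem_univ a)]
      have ha : (Perm.decomposeOption.symm (some (σ a), σ)) (some a) = none := by
        simp [Perm.decomposeOption]
      rw [ha]
      have hc : ∏ c ∈ univ.erase a, W x (some c) ((Perm.decomposeOption.symm (some (σ a), σ)) (some c))
          = ∏ c ∈ univ.erase a, W (fun c => x (some c)) c (σ c) := by
        refine Finset.prod_congr rfl (fun c hc => ?_)
        have hca : c ≠ a := Finset.ne_of_mem_erase hc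
        have : (Perm.decomposeOption.symm (some (σ a), σ)) (some c) = some (σ c) := by
          simp only [Perm.decomposeOption, Equiv.coe_fn_symm_mk, Perm.coe_mul, Function.comp,
            Equiv.optionCongr_apply, Option.map_some]
          rw [Equiv.swap_apply_of_ne_of_ne]
          · simp
          · intro h
            exact hca (σ.injective (Option.some_injective _ h))
        rw [this]
        simp only [W, Option.some.injEq]
      rw [hc, ← Finset.mul_prod_erase univ (fun c => W (fun c => x (some c)) c (σ c))
        (Finset.mem_univ a)]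
      by_cases hfix : σ a = a
      · rw [if_pos hfix, hfix]
        ring
      · rw [if_neg hfix]
        have e1 : x none ≠ x (some a) := fun h => by simpa using hx h
        have e2 : x none ≠ x (some (σ a)) := fun h => by simpa using hx h
        have e3 : x (some a) ≠ x (some (σ a)) := fun h => hfix (by
          have := Option.some_injective _ (hx h)
          exact this.symm)
        have e1' := sub_ne_zero.2 e1
        have e2' := sub_ne_zero.2 e2
        have e3' := sub_ne_zero.2 e3
        have e4' := sub_ne_zero.2 e1.symm
        have e5' := sub_ne_zero.2 e2.symm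
        have e6' := sub_ne_zero.2 e3.symm
        have key : W x none (some (σ a)) * W x (some a) none
            = (W x (some a) none - W x (some (σ a)) none) * W (fun c => x (some c)) a (σ a) := by
          have n1 : (none : Option α) ≠ some (σ a) := by simp
          have n2 : (some a : Option α) ≠ none := by simp
          have n3 : (some (σ a) : Option α) ≠ none := by simp
          simp only [W]
          rw [if_neg n1, if_neg n2, if_neg n3, if_neg (fun h => hfix h.symm)]
          field_simp
          ring
        rw [mul_zero, add_zero, ← mul_assoc, key]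
        ring
    rw [Finset.sum_congr rfl (fun a _ => h2 a), ← Finset.mul_sum, Finset.sum_add_distrib,
      ← Finset.sum_mul, Finset.sum_sub_distrib]
    have h3 : ∑ a, W x (some (σ a)) none = ∑ a, W x (some a) none :=
      Equiv.sum_comp σ (fun a => W x (some a) none)
    rw [h3, sub_self, zero_mul, zero_add, mul_assoc]
    congr 1
    rw [Finset.mul_sum]
    refine Finset.sum_congr rfl (fun a _ => ?_)
    ring
  rw [Finset.sum_congr rfl (fun σ _ => h1 σ), ← Finset.mul_sum, Finset.sum_comm]
  congr 1
  refine Finset.sum_congr rfl (fun a _ => ?_)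
  rw [← Finset.mul_sum, F_subtype g (fun c => x (some c)) a]

theorem F_empty {α : Type*} [DecidableEq α] [Fintype α] (g : ℤˣ →* K) (x : α → K)
    (h : Fintype.card α = 0) : F g x = 1 := by
  have : IsEmpty α := Fintype.card_eq_zero_iff.1 h
  unfold F
  rw [Fintype.sum_unique]
  simp

/-- if `g (-1) = 1` and `g' (-1) = -1` then `F g = (-1)^m F g'` on `2m` points. -/
theorem F_even (g g' : ℤˣ →* K) (hg : g (-1) = 1) (hg' : g' (-1) = -1) (m : ℕ) :
    ∀ {α : Type} [DecidableEq α] [Fintype α] (x : α → K), Function.Injective x →
      Fintype.card α = 2 * m → F g x = (-1) ^ m * F g' x := by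
  induction m with
  | zero =>
    intro α _ _ x _ h
    rw [F_empty g x (by simpa using h), F_empty g' x (by simpa using h)]
    simp
  | succ m ih =>
    intro α _ _ x hx h
    have e : Option (Fin (2 * m + 1)) ≃ α :=
      Fintype.equivOfCardEq (by rw [h, Fintype.card_option, Fintype.card_fin]; ring)
    rw [F_congr g e x, F_congr g' e x]
    have hinj : Function.Injective (x ∘ e) := hx.comp e.injective
    rw [F_option g _ hinj, F_option g' _ hinj, hg, hg', one_mul]
    have h1 : ∀ a : Fin (2 * m + 1), F g (fun c : {c : Fin (2 * m + 1) // c ≠ a} => (x ∘ e) (some c))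
        = (-1) ^ m * F g' (fun c : {c : Fin (2 * m + 1) // c ≠ a} => (x ∘ e) (some c)) := by
      intro a
      apply ih
      · intro c d hcd
        exact Subtype.ext (Option.some_injective _ (hinj hcd))
      · rw [Fintype.card_subtype_compl, Fintype.card_fin, Fintype.card_subtype_eq]
        omega
    rw [Finset.sum_congr rfl (fun a _ => by rw [h1 a])]
    rw [pow_succ, Finset.mul_sum, Finset.mul_sum]
    refine Finset.sum_congr rfl (fun a _ => ?_)
    ring

end H11.Derange
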